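import Mathlib

/-!
Every n-dimensional normed space E carries x_1, ..., x_n with
||sum a_i x_i||^2 <= sum |a_i|^2 and sum ||x_i||^2 >= n/12 (maximal determinant).
-/

open Module

namespace Pool.Agent.H21.PTy

variable {𝕜 : Type*} [RCLike 𝕜]

lemma exists_max {E : Type*} [NormedAddCommGroup E] [NormedSpace 𝕜 E] [FiniteDimensional 𝕜 E]
    {n : ℕ} (hn : finrank 𝕜 E = n) :
    ∃ u : EuclideanSpace 𝕜 (Fin n) →L[𝕜] E, ‖u‖ ≤ 1 ∧
      (∀ v : EuclideanSpace 𝕜 (Fin n) →L[𝕜] EuclideanSpace 𝕜 (Fin n),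
        ‖u ∘L v‖ ≤ 1 → ‖v.det‖ ≤ 1) ∧ Function.Injective u := by
  have hfr : finrank 𝕜 (EuclideanSpace 𝕜 (Fin n)) = finrank 𝕜 E := by simp [hn]
  let e : EuclideanSpace 𝕜 (Fin n) ≃L[𝕜] E := ContinuousLinearEquiv.ofFinrankEq hfr
  let D : (EuclideanSpace 𝕜 (Fin n) →L[𝕜] E) → ℝ :=
    fun w => ‖((e.symm : E →L[𝕜] EuclideanSpace 𝕜 (Fin n)) ∘L w).det‖
  have hDc : Continuous D := by
    have h1 : Continuous fun w : EuclideanSpace 𝕜 (Fin n) →L[𝕜] E =>
        ((e.symm : E →L[𝕜] EuclideanSpace 𝕜 (Fin n)) ∘L w) :=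
      continuous_const.clm_comp continuous_id
    exact (ContinuousLinearMap.continuous_det.comp h1).norm
  haveI : ProperSpace (EuclideanSpace 𝕜 (Fin n) →L[𝕜] E) := FiniteDimensional.proper 𝕜 _
  have hcomp : IsCompact (Metric.closedBall (0 : EuclideanSpace 𝕜 (Fin n) →L[𝕜] E) 1) :=
    isCompact_closedBall _ _
  obtain ⟨u, hu, hmax⟩ := hcomp.exists_isMaxOn ⟨0, by simp⟩ hDc.continuousOn
  have hu1 : ‖u‖ ≤ 1 := by simpa using hu
  have hmul : ∀ (w : EuclideanSpace 𝕜 (Fin n) →L[𝕜] E)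
      (v : EuclideanSpace 𝕜 (Fin n) →L[𝕜] EuclideanSpace 𝕜 (Fin n)),
      D (w ∘L v) = D w * ‖v.det‖ := by
    intro w v
    have : (((e.symm : E →L[𝕜] EuclideanSpace 𝕜 (Fin n)) ∘L (w ∘L v))).det =
        ((e.symm : E →L[𝕜] EuclideanSpace 𝕜 (Fin n)) ∘L w).det * v.det := by
      have := LinearMap.det_comp
        (((e.symm : E →L[𝕜] EuclideanSpace 𝕜 (Fin n)) ∘L w :
          EuclideanSpace 𝕜 (Fin n) →L[𝕜] EuclideanSpace 𝕜 (Fin n)) :
          EuclideanSpace 𝕜 (Fin n) →ₗ[𝕜] EuclideanSpace 𝕜 (Fin n))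
        (v : EuclideanSpace 𝕜 (Fin n) →ₗ[𝕜] EuclideanSpace 𝕜 (Fin n))
      exact this
    show ‖_‖ = ‖_‖ * _
    rw [this, norm_mul]
  have hpos : 0 < D u := by
    set t : ℝ := ‖(e : EuclideanSpace 𝕜 (Fin n) →L[𝕜] E)‖ + 1 with ht
    have htpos : 0 < t := by positivity
    have hmem : ((t : 𝕜)⁻¹ • (e : EuclideanSpace 𝕜 (Fin n) →L[𝕜] E)) ∈
        Metric.closedBall (0 : EuclideanSpace 𝕜 (Fin n) →L[𝕜] E) 1 := by
      rw [mem_closedBall_zero_iff, norm_smul, norm_inv, RCLike.norm_ofReal, abs_of_pos htpos,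
        inv_mul_le_iff₀ htpos]
      linarith
    have h1 := hmax hmem
    have h2 : D ((t : 𝕜)⁻¹ • (e : EuclideanSpace 𝕜 (Fin n) →L[𝕜] E)) = ‖(t : 𝕜)⁻¹ ^ n‖ := by
      have : ((e.symm : E →L[𝕜] EuclideanSpace 𝕜 (Fin n)) ∘L
          ((t : 𝕜)⁻¹ • (e : EuclideanSpace 𝕜 (Fin n) →L[𝕜] E))).det = (t : 𝕜)⁻¹ ^ n := by
        have h3 : ((e.symm : E →L[𝕜] EuclideanSpace 𝕜 (Fin n)) ∘L
          ((t : 𝕜)⁻¹ • (e : EuclideanSpace 𝕜 (Fin n) →L[𝕜] E))) =
            (t : 𝕜)⁻¹ • (ContinuousLinearMap.id 𝕜 (EuclideanSpace 𝕜 (Fin n))) := by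
          ext1 x
          simp
        rw [h3]
        show LinearMap.det ((t : 𝕜)⁻¹ • (LinearMap.id : EuclideanSpace 𝕜 (Fin n) →ₗ[𝕜] _)) = _
        rw [LinearMap.det_smul]
        simp
      show ‖_‖ = _
      rw [this]
    have h3 : 0 < ‖(t : 𝕜)⁻¹ ^ n‖ := by
      rw [norm_pos_iff]
      exact pow_ne_zero _ (inv_ne_zero (by exact_mod_cast htpos.ne'))
    have h1' : D ((t : 𝕜)⁻¹ • (e : EuclideanSpace 𝕜 (Fin n) →L[𝕜] E)) ≤ D u := h1
    rw [h2] at h1'
    linarith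
  have hinj : Function.Injective u := by
    have h1 : LinearMap.det (((e.symm : E →L[𝕜] EuclideanSpace 𝕜 (Fin n)) ∘L u :
        EuclideanSpace 𝕜 (Fin n) →L[𝕜] EuclideanSpace 𝕜 (Fin n)) :
        EuclideanSpace 𝕜 (Fin n) →ₗ[𝕜] EuclideanSpace 𝕜 (Fin n)) ≠ 0 := by
      intro h0
      have h2 : D u = 0 := by
        show ‖LinearMap.det _‖ = 0
        rw [h0, norm_zero]
      linarith
    have h2 := (LinearMap.equivOfDetNeZero _ h1).injective
    intro a b hab
    apply h2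
    show e.symm (u a) = e.symm (u b)
    rw [hab]
  refine ⟨u, hu1, ?_, hinj⟩
  intro v hv
  have h1 : D (u ∘L v) ≤ D u := hmax (by simpa using hv)
  rw [hmul] at h1
  by_contra hcon
  push Not at hcon
  have : D u * 1 < D u * ‖v.det‖ := mul_lt_mul_of_pos_left hcon hpos
  linarith

/-- the spreading operator: multiplies the coordinates `i >= m` by two -/
lemma exists_spread {n : ℕ} (b : OrthonormalBasis (Fin n) 𝕜 (EuclideanSpace 𝕜 (Fin n))) (m : ℕ) :
    ∃ v q : EuclideanSpace 𝕜 (Fin n) →L[𝕜] EuclideanSpace 𝕜 (Fin n),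
      (∀ a, v a = a + q a) ∧ (∀ a, ‖q a‖ ≤ ‖a‖) ∧
      (∀ a, ∀ i : Fin n, (i : ℕ) < m → inner 𝕜 (b i) (q a) = 0) ∧
      ‖v.det‖ = 2 ^ (n - m) := by
  classical
  let c : Fin n → 𝕜 := fun i => if (i : ℕ) < m then 1 else 2
  let d : Fin n → 𝕜 := fun i => if (i : ℕ) < m then 0 else 1
  let vl : EuclideanSpace 𝕜 (Fin n) →ₗ[𝕜] EuclideanSpace 𝕜 (Fin n) :=
    Matrix.toLin b.toBasis b.toBasis (Matrix.diagonal c)
  let ql : EuclideanSpace 𝕜 (Fin n) →ₗ[𝕜] EuclideanSpace 𝕜 (Fin n) :=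
    Matrix.toLin b.toBasis b.toBasis (Matrix.diagonal d)
  have hvb : ∀ i, vl (b i) = c i • b i := by
    intro i
    have := Matrix.toLin_self b.toBasis b.toBasis (Matrix.diagonal c) i
    rw [show b i = b.toBasis i by simp]
    rw [this]
    rw [Finset.sum_eq_single i]
    · simp
    · intro j _ hj
      simp [Matrix.diagonal_apply_ne _ hj]
    · simp
  have hqb : ∀ i, ql (b i) = d i • b i := by
    intro i
    have := Matrix.toLin_self b.toBasis b.toBasis (Matrix.diagonal d) i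
    rw [show b i = b.toBasis i by simp]
    rw [this]
    rw [Finset.sum_eq_single i]
    · simp
    · intro j _ hj
      simp [Matrix.diagonal_apply_ne _ hj]
    · simp
  have hq : ∀ a, ql a = ∑ i, (inner 𝕜 (b i) a * d i) • b i := by
    intro a
    conv_lhs => rw [← b.sum_repr' a]
    rw [map_sum]
    refine Finset.sum_congr rfl fun i _ => ?_
    rw [map_smul, hqb, smul_smul]
  have hv : ∀ a, vl a = a + ql a := by
    intro a
    have h1 : vl a = ∑ i, (inner 𝕜 (b i) a * c i) • b i := by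
      conv_lhs => rw [← b.sum_repr' a]
      rw [map_sum]
      refine Finset.sum_congr rfl fun i _ => ?_
      rw [map_smul, hvb, smul_smul]
    have h2 : a + ql a = ∑ i, (inner 𝕜 (b i) a * (1 + d i)) • b i := by
      rw [hq]
      conv_lhs => rw [← b.sum_repr' a]
      rw [b.sum_repr' a]
      nth_rewrite 1 [← b.sum_repr' a]
      rw [← Finset.sum_add_distrib]
      refine Finset.sum_congr rfl fun i _ => ?_
      rw [← add_smul]
      congr 1
      ring
    rw [h1, h2]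
    refine Finset.sum_congr rfl fun i _ => ?_
    congr 2
    by_cases h : (i : ℕ) < m
    · simp [c, d, h]
    · simp only [c, d, h, if_false]
      norm_num
  have hin : ∀ a i, inner 𝕜 (b i) (ql a) = inner 𝕜 (b i) a * d i := by
    intro a i
    rw [hq, inner_sum]
    rw [Finset.sum_eq_single i]
    · rw [inner_smul_right, b.inner_eq_one, mul_one]
    · intro j _ hj
      rw [inner_smul_right, b.inner_eq_zero (Ne.symm hj), mul_zero]
    · simp
  refine ⟨LinearMap.toContinuousLinearMap vl, LinearMap.toContinuousLinearMap ql, ?_, ?_, ?_, ?_⟩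
  · intro a
    exact hv a
  · intro a
    show ‖ql a‖ ≤ ‖a‖
    have h1 := b.sum_sq_norm_inner_right (ql a)
    have h2 := b.sum_sq_norm_inner_right a
    have h3 : ∑ i, ‖inner 𝕜 (b i) (ql a)‖ ^ 2 ≤ ∑ i, ‖inner 𝕜 (b i) a‖ ^ 2 := by
      refine Finset.sum_le_sum fun i _ => ?_
      rw [hin, norm_mul]
      have : ‖d i‖ ≤ 1 := by
        by_cases h : (i : ℕ) < m
        · simp [d, h]
        · simp [d, h]
      have h4 : ‖inner 𝕜 (b i) a‖ * ‖d i‖ ≤ ‖inner 𝕜 (b i) a‖ * 1 :=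
        mul_le_mul_of_nonneg_left this (norm_nonneg _)
      rw [mul_one] at h4
      exact pow_le_pow_left₀ (by positivity) h4 2
    rw [h1, h2] at h3
    exact le_of_sq_le_sq h3 (norm_nonneg _)
  · intro a i hi
    show inner 𝕜 (b i) (ql a) = 0
    rw [hin]
    simp [d, hi]
  · show ‖LinearMap.det vl‖ = _
    rw [LinearMap.det_toLin, Matrix.det_diagonal]
    rw [norm_prod]
    have h1 : ∀ i : Fin n, ‖c i‖ = if (i : ℕ) < m then 1 else 2 := by
      intro i
      by_cases h : (i : ℕ) < m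
      · simp [c, h]
      · simp [c, h]
    simp only [h1]
    rw [Finset.prod_ite]
    simp only [Finset.prod_const_one, one_mul, Finset.prod_const]
    congr 1
    have h2 : (Finset.univ.filter fun i : Fin n => ¬ (i : ℕ) < m).card = n - m := by
      have h3 := Finset.card_filter_add_card_filter_not (s := (Finset.univ : Finset (Fin n)))
        (fun i : Fin n => (i : ℕ) < m)
      have h4 : (Finset.univ.filter fun i : Fin n => (i : ℕ) < m).card = min n m :=
        Fin.card_filter_val_lt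
      rw [h4, Finset.card_univ, Fintype.card_fin] at h3
      omega
    exact h2

/-- one step of the choice of the basis -/
lemma step {E : Type*} [NormedAddCommGroup E] [NormedSpace 𝕜 E] {n : ℕ}
    (u : EuclideanSpace 𝕜 (Fin n) →L[𝕜] E) (hu1 : ‖u‖ ≤ 1)
    (hu : ∀ v : EuclideanSpace 𝕜 (Fin n) →L[𝕜] EuclideanSpace 𝕜 (Fin n),
        ‖u ∘L v‖ ≤ 1 → ‖v.det‖ ≤ 1)
    (b : OrthonormalBasis (Fin n) 𝕜 (EuclideanSpace 𝕜 (Fin n))) (m : ℕ) (hm : m < n) :
    ∃ w : EuclideanSpace 𝕜 (Fin n), ‖w‖ = 1 ∧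
      (∀ i : Fin n, (i : ℕ) < m → inner 𝕜 (b i) w = 0) ∧
      ((n : ℝ) - m) / (2 * n) ≤ ‖u w‖ := by
  by_contra hcon
  push Not at hcon
  obtain ⟨v, q, hv, hq, hqo, hdet⟩ := exists_spread b m
  have hn0 : (0 : ℝ) < n := by
    have : 0 < n := by omega
    exact_mod_cast this
  set s : ℝ := ((n : ℝ) - m) / (2 * n) with hs
  have hs0 : 0 ≤ s := by
    have : (m : ℝ) ≤ n := by exact_mod_cast hm.le
    rw [hs]
    apply div_nonneg
    · linarith
    · positivity
  have hw : ∀ a, ‖u (q a)‖ ≤ s * ‖q a‖ := by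
    intro a
    by_cases hz : q a = 0
    · simp [hz]
    · have hnz : ‖q a‖ ≠ 0 := norm_ne_zero_iff.mpr hz
      have h1 := hcon (((‖q a‖ : ℝ) : 𝕜)⁻¹ • q a) (by
        rw [norm_smul, norm_inv, RCLike.norm_ofReal, abs_norm, inv_mul_cancel₀ hnz]) (by
        intro i hi
        rw [inner_smul_right, hqo a i hi, mul_zero])
      rw [map_smul, norm_smul, norm_inv, RCLike.norm_ofReal, abs_norm] at h1
      have hp : 0 < ‖q a‖ := norm_pos_iff.mpr hz
      rw [inv_mul_lt_iff₀ hp] at h1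
      linarith
  have hle : ‖u ∘L v‖ ≤ 1 + s := by
    refine ContinuousLinearMap.opNorm_le_bound _ (by linarith) ?_
    intro a
    show ‖u (v a)‖ ≤ _
    rw [hv, map_add]
    have h1 : ‖u a‖ ≤ ‖a‖ := by
      have := u.le_opNorm a
      have h2 : ‖u‖ * ‖a‖ ≤ 1 * ‖a‖ := mul_le_mul_of_nonneg_right hu1 (norm_nonneg _)
      linarith
    have h2 := hw a
    have h3 : s * ‖q a‖ ≤ s * ‖a‖ := mul_le_mul_of_nonneg_left (hq a) hs0
    have h4 := norm_add_le (u a) (u (q a))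
    linarith
  have h1 := hu (((1 + s : ℝ) : 𝕜)⁻¹ • v) (by
    rw [ContinuousLinearMap.comp_smul, norm_smul, norm_inv, RCLike.norm_ofReal,
      abs_of_pos (by linarith), inv_mul_le_iff₀ (by linarith)]
    linarith)
  have h2 : (((1 + s : ℝ) : 𝕜)⁻¹ • v).det = (((1 + s : ℝ) : 𝕜)⁻¹) ^ n * v.det := by
    show LinearMap.det ((((1 + s : ℝ) : 𝕜)⁻¹) •
      (v : EuclideanSpace 𝕜 (Fin n) →ₗ[𝕜] EuclideanSpace 𝕜 (Fin n))) = _
    rw [LinearMap.det_smul]
    simp only [finrank_euclideanSpace, Fintype.card_fin]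
  rw [h2, norm_mul, norm_pow, norm_inv, RCLike.norm_ofReal, abs_of_pos (by linarith), hdet,
    inv_pow, inv_mul_le_iff₀ (by positivity), mul_one] at h1
  -- 2 ^ (n - m) <= (1 + s) ^ n <= exp (1/2) ^ (n - m)
  have h3 : (1 + s) ^ n ≤ Real.exp (1 / 2) ^ (n - m) := by
    have h4 : (1 + s) ^ n ≤ (Real.exp s) ^ n := by
      apply pow_le_pow_left₀ (by linarith)
      have := Real.add_one_le_exp s
      linarith
    have h5 : (Real.exp s) ^ n = Real.exp (1 / 2) ^ (n - m) := by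
      rw [← Real.exp_nat_mul, ← Real.exp_nat_mul]
      congr 1
      rw [Nat.cast_sub hm.le, hs]
      field_simp
    linarith
  have h6 : Real.exp (1 / 2) < 2 := by
    have h7 : Real.exp (1 / 2) ^ 2 = Real.exp 1 := by
      rw [← Real.exp_nat_mul]
      norm_num
    have h8 := Real.exp_one_lt_d9
    nlinarith [Real.exp_pos (1 / 2)]
  have h9 : Real.exp (1 / 2) ^ (n - m) < 2 ^ (n - m) := by
    apply pow_lt_pow_left₀ h6 (Real.exp_pos _).le
    omega
  linarith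

lemma exists_basis {E : Type*} [NormedAddCommGroup E] [NormedSpace 𝕜 E] {n : ℕ}
    (u : EuclideanSpace 𝕜 (Fin n) →L[𝕜] E) (hu1 : ‖u‖ ≤ 1)
    (hu : ∀ v : EuclideanSpace 𝕜 (Fin n) →L[𝕜] EuclideanSpace 𝕜 (Fin n),
        ‖u ∘L v‖ ≤ 1 → ‖v.det‖ ≤ 1) (m : ℕ) (hm : m ≤ n) :
    ∃ b : OrthonormalBasis (Fin n) 𝕜 (EuclideanSpace 𝕜 (Fin n)),
      ∀ i : Fin n, (i : ℕ) < m → ((n : ℝ) - i) / (2 * n) ≤ ‖u (b i)‖ := by
  classical
  induction m with
  | zero => exact ⟨EuclideanSpace.basisFun _ _, by intro i hi; omega⟩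
  | succ m ih =>
    obtain ⟨b, hb⟩ := ih (by omega)
    obtain ⟨w, hw1, hwo, hwu⟩ := step u hu1 hu b m (by omega)
    let v : Fin n → EuclideanSpace 𝕜 (Fin n) :=
      fun i => if (i : ℕ) = m then w else b i
    let s : Set (Fin n) := {i | (i : ℕ) < m + 1}
    have hv : Orthonormal 𝕜 (s.restrict v) := by
      constructor
      · rintro ⟨i, hi⟩
        show ‖v i‖ = 1
        by_cases h : (i : ℕ) = m
        · simp [v, h, hw1]
        · simp [v, h]
      · rintro ⟨i, hi⟩ ⟨j, hj⟩ hij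
        show inner 𝕜 (v i) (v j) = 0
        have hij' : i ≠ j := fun h => hij (by simp [h])
        have hi' : (i : ℕ) < m + 1 := hi
        have hj' : (j : ℕ) < m + 1 := hj
        by_cases h1 : (i : ℕ) = m
        · by_cases h2 : (j : ℕ) = m
          · exact absurd (Fin.ext (h1.trans h2.symm)) hij'
          · have h3 : inner 𝕜 (b j) w = 0 := hwo j (by omega)
            simp only [v, h1, h2, if_true, if_false]
            exact inner_eq_zero_symm.mp h3
        · by_cases h2 : (j : ℕ) = m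
          · have h3 : inner 𝕜 (b i) w = 0 := hwo i (by omega)
            simp only [v, h1, h2, if_true, if_false]
            exact h3
          · simp only [v, h1, h2, if_false]
            exact b.inner_eq_zero hij'
    obtain ⟨b', hb'⟩ := hv.exists_orthonormalBasis_extension_of_card_eq (by simp)
    refine ⟨b', ?_⟩
    intro i hi
    rw [hb' i hi]
    by_cases h : (i : ℕ) = m
    · simp only [v, h, if_true]
      exact hwu
    · simp only [v, h, if_false]
      exact hb i (by omega)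

lemma sum_sq_ge (n : ℕ) :
    (n : ℝ) ^ 3 / 3 ≤ ∑ i ∈ Finset.range n, ((n : ℝ) - i) ^ 2 := by
  induction n with
  | zero => simp
  | succ n ih =>
    rw [Finset.sum_range_succ']
    have h1 : ∑ i ∈ Finset.range n, (((n + 1 : ℕ) : ℝ) - ((i + 1 : ℕ) : ℝ)) ^ 2 =
        ∑ i ∈ Finset.range n, ((n : ℝ) - i) ^ 2 := by
      refine Finset.sum_congr rfl fun i _ => ?_
      push_cast
      ring
    rw [h1]
    push_cast
    have hn : (0 : ℝ) ≤ n := Nat.cast_nonneg n
    nlinarith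

/-- the vectors of the 2-summing lower bound -/
theorem exists_vectors {E : Type*} [NormedAddCommGroup E] [NormedSpace 𝕜 E]
    [FiniteDimensional 𝕜 E] {n : ℕ} (hn : finrank 𝕜 E = n) :
    ∃ x : Fin n → E, (∀ a : Fin n → 𝕜, ‖∑ i, a i • x i‖ ^ 2 ≤ ∑ i, ‖a i‖ ^ 2) ∧
      (n : ℝ) / 12 ≤ ∑ i, ‖x i‖ ^ 2 := by
  obtain ⟨u, hu1, hu, -⟩ := exists_max (𝕜 := 𝕜) hn
  obtain ⟨b, hb⟩ := exists_basis u hu1 hu n le_rfl
  refine ⟨fun i => u (b i), ?_, ?_⟩
  · intro a
    have h1 : ∑ i, a i • u (b i) = u (∑ i, a i • b i) := by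
      rw [map_sum]
      refine Finset.sum_congr rfl fun i _ => ?_
      rw [map_smul]
    rw [h1]
    have h2 : ‖∑ i, a i • b i‖ ^ 2 = ∑ i, ‖a i‖ ^ 2 := by
      have := b.sum_sq_norm_inner_right (∑ i, a i • b i)
      rw [← this]
      refine Finset.sum_congr rfl fun i _ => ?_
      rw [b.orthonormal.inner_right_fintype]
    have h3 : ‖u (∑ i, a i • b i)‖ ≤ ‖∑ i, a i • b i‖ := by
      have h4 := u.le_opNorm (∑ i, a i • b i)
      have h5 : ‖u‖ * ‖∑ i, a i • b i‖ ≤ 1 * ‖∑ i, a i • b i‖ :=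
        mul_le_mul_of_nonneg_right hu1 (norm_nonneg _)
      linarith
    rw [← h2]
    exact pow_le_pow_left₀ (norm_nonneg _) h3 2
  · rcases Nat.eq_zero_or_pos n with h0 | hpos
    · subst h0
      simp
    have hn0 : (0 : ℝ) < n := by exact_mod_cast hpos
    have h1 : ∀ i : Fin n, (((n : ℝ) - i) / (2 * n)) ^ 2 ≤ ‖u (b i)‖ ^ 2 := by
      intro i
      have h2 := hb i i.2
      have h3 : (0 : ℝ) ≤ ((n : ℝ) - i) / (2 * n) := by
        have : ((i : ℕ) : ℝ) ≤ n := by exact_mod_cast i.2.le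
        apply div_nonneg
        · linarith
        · positivity
      exact pow_le_pow_left₀ h3 h2 2
    have h4 : ∑ i : Fin n, (((n : ℝ) - i) / (2 * n)) ^ 2 =
        (∑ i ∈ Finset.range n, ((n : ℝ) - i) ^ 2) / (4 * (n : ℝ) ^ 2) := by
      rw [Finset.sum_div, ← Fin.sum_univ_eq_sum_range
        (fun i => ((n : ℝ) - (i : ℝ)) ^ 2 / (4 * (n : ℝ) ^ 2)) n]
      refine Finset.sum_congr rfl fun i _ => ?_
      rw [div_pow]
      congr 1
      ring
    have h5 := sum_sq_ge n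
    have h6 : (n : ℝ) / 12 ≤ (∑ i ∈ Finset.range n, ((n : ℝ) - i) ^ 2) / (4 * (n : ℝ) ^ 2) := by
      rw [le_div_iff₀ (by positivity)]
      nlinarith
    calc (n : ℝ) / 12 ≤ _ := h6
      _ = ∑ i : Fin n, (((n : ℝ) - i) / (2 * n)) ^ 2 := h4.symm
      _ ≤ ∑ i, ‖u (b i)‖ ^ 2 := Finset.sum_le_sum fun i _ => h1 i

end Pool.Agent.H21.PTy
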