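import Pool.Agent.H21.PTy.Nuc

/-!
Determinants of 2-summing operators on invariant subspaces.
-/

open Module

namespace Pool.Agent.H21.PTy

variable {𝕜 : Type*} [RCLike 𝕜]

/-- Hadamard: the determinant of a family is at most the product of the norms -/
lemma hadamard_le {n : ℕ} (f : Fin n → EuclideanSpace 𝕜 (Fin n)) :
    ‖(EuclideanSpace.basisFun (Fin n) 𝕜).toBasis.det f‖ ≤ ∏ i, ‖f i‖ := by
  classical
  have h : Module.finrank 𝕜 (EuclideanSpace 𝕜 (Fin n)) = Fintype.card (Fin n) := by simp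
  let e := InnerProductSpace.gramSchmidtOrthonormalBasis h f
  let s := EuclideanSpace.basisFun (Fin n) 𝕜
  have h1 : s.toBasis.toMatrix e * e.toBasis.toMatrix f = s.toBasis.toMatrix f := by
    have := Module.Basis.toMatrix_mul_toMatrix s.toBasis e.toBasis f
    simpa using this
  have h2 : s.toBasis.det f = s.toBasis.det e * e.toBasis.det f := by
    rw [Module.Basis.det_apply, Module.Basis.det_apply, Module.Basis.det_apply, ← Matrix.det_mul, h1]
  have h3 : ‖s.toBasis.det e‖ = 1 := OrthonormalBasis.det_to_matrix_orthonormalBasis s e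
  have h4 : e.toBasis.det f = ∏ i, inner 𝕜 (e i) (f i) :=
    InnerProductSpace.gramSchmidtOrthonormalBasis_det h f
  show ‖s.toBasis.det f‖ ≤ _
  rw [h2, norm_mul, h3, one_mul, h4, norm_prod]
  apply Finset.prod_le_prod
  · intro i _
    exact norm_nonneg _
  · intro i _
    have := norm_inner_le_norm (𝕜 := 𝕜) (e i) (f i)
    rwa [e.orthonormal.1 i, one_mul] at this

/-- equality for orthogonal families -/
lemma hadamard_eq {n : ℕ} (f : Fin n → EuclideanSpace 𝕜 (Fin n))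
    (ho : ∀ i j, i ≠ j → inner 𝕜 (f i) (f j) = 0) (hne : ∀ i, f i ≠ 0) :
    ‖(EuclideanSpace.basisFun (Fin n) 𝕜).toBasis.det f‖ = ∏ i, ‖f i‖ := by
  classical
  let g : Fin n → EuclideanSpace 𝕜 (Fin n) := fun i => (((‖f i‖ : ℝ) : 𝕜)⁻¹) • f i
  have hg : Orthonormal 𝕜 g := by
    constructor
    · intro i
      have : ‖f i‖ ≠ 0 := norm_ne_zero_iff.mpr (hne i)
      show ‖(((‖f i‖ : ℝ) : 𝕜)⁻¹) • f i‖ = 1
      rw [norm_smul, norm_inv, RCLike.norm_ofReal, abs_norm, inv_mul_cancel₀ this]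
    · intro i j hij
      show inner 𝕜 ((((‖f i‖ : ℝ) : 𝕜)⁻¹) • f i) ((((‖f j‖ : ℝ) : 𝕜)⁻¹) • f j) = 0
      rw [inner_smul_left, inner_smul_right, ho i j hij]
      simp
  have hres : Orthonormal 𝕜 ((Set.univ : Set (Fin n)).restrict g) := by
    have := hg.comp (fun i : (Set.univ : Set (Fin n)) => (i : Fin n)) Subtype.val_injective
    exact this
  obtain ⟨b, hb⟩ := hres.exists_orthonormalBasis_extension_of_card_eq (by simp)
  have hf : f = fun i => (((‖f i‖ : ℝ) : 𝕜)) • b i := by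
    funext i
    rw [hb i (Set.mem_univ i)]
    show f i = ((‖f i‖ : ℝ) : 𝕜) • ((((‖f i‖ : ℝ) : 𝕜)⁻¹) • f i)
    rw [smul_smul, mul_inv_cancel₀, one_smul]
    have : ‖f i‖ ≠ 0 := norm_ne_zero_iff.mpr (hne i)
    exact_mod_cast this
  have h1 : (EuclideanSpace.basisFun (Fin n) 𝕜).toBasis.det f =
      (∏ i, ((‖f i‖ : ℝ) : 𝕜)) * (EuclideanSpace.basisFun (Fin n) 𝕜).toBasis.det b := by
    conv_lhs => rw [hf]
    have := (EuclideanSpace.basisFun (Fin n) 𝕜).toBasis.det.map_smul_univ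
      (fun i => ((‖f i‖ : ℝ) : 𝕜)) b
    rw [this, smul_eq_mul]
  have h2 : ‖(EuclideanSpace.basisFun (Fin n) 𝕜).toBasis.det b‖ = 1 :=
    OrthonormalBasis.det_to_matrix_orthonormalBasis _ b
  rw [h1, norm_mul, h2, mul_one, norm_prod]
  refine Finset.prod_congr rfl fun i _ => ?_
  rw [RCLike.norm_ofReal, abs_norm]

/-- a unit vector of `S` on which `u` is large -/
lemma exists_unit {E : Type*} [NormedAddCommGroup E] [NormedSpace 𝕜 E] {n : ℕ}
    (u : EuclideanSpace 𝕜 (Fin n) →L[𝕜] E) (hu1 : ‖u‖ ≤ 1)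
    (hu : ∀ v : EuclideanSpace 𝕜 (Fin n) →L[𝕜] EuclideanSpace 𝕜 (Fin n),
        ‖u ∘L v‖ ≤ 1 → ‖v.det‖ ≤ 1)
    (S : Submodule 𝕜 (EuclideanSpace 𝕜 (Fin n))) (k : ℕ) (hk : 1 ≤ k) (hS : k ≤ finrank 𝕜 S) :
    ∃ w ∈ S, ‖w‖ = 1 ∧ (k : ℝ) / (2 * n) ≤ ‖u w‖ := by
  classical
  have hkn : finrank 𝕜 S ≤ n := by
    have := S.finrank_le
    simpa using this
  let m := n - k
  let b0 := stdOrthonormalBasis 𝕜 S
  let v0 : Fin n → EuclideanSpace 𝕜 (Fin n) := fun i =>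
    if h : m ≤ (i : ℕ) then (b0 ⟨(i : ℕ) - m, by omega⟩ : EuclideanSpace 𝕜 (Fin n)) else 0
  let s : Set (Fin n) := {i | m ≤ (i : ℕ)}
  have hv : Orthonormal 𝕜 (s.restrict v0) := by
    constructor
    · rintro ⟨i, hi⟩
      have hi' : m ≤ (i : ℕ) := hi
      show ‖v0 i‖ = 1
      simp only [v0, hi', dif_pos]
      rw [Submodule.norm_coe]
      exact b0.orthonormal.1 _
    · rintro ⟨i, hi⟩ ⟨j, hj⟩ hij
      have hi' : m ≤ (i : ℕ) := hi
      have hj' : m ≤ (j : ℕ) := hj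
      have hij' : (i : ℕ) ≠ (j : ℕ) := fun h => hij (Subtype.ext (Fin.ext h))
      show inner 𝕜 (v0 i) (v0 j) = 0
      simp only [v0, hi', hj', dif_pos]
      rw [← Submodule.coe_inner]
      apply b0.orthonormal.2
      intro h
      have h2 := congrArg Fin.val h
      simp only at h2
      omega
  obtain ⟨b, hb⟩ := hv.exists_orthonormalBasis_extension_of_card_eq (by simp)
  obtain ⟨w, hw1, hwo, hwu⟩ := step u hu1 hu b m (by omega)
  refine ⟨w, ?_, hw1, ?_⟩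
  · rw [← b.sum_repr' w]
    refine S.sum_mem fun i _ => ?_
    by_cases h : (i : ℕ) < m
    · rw [hwo i h, zero_smul]
      exact S.zero_mem
    · have h' : m ≤ (i : ℕ) := not_lt.mp h
      apply S.smul_mem
      rw [hb i h']
      simp only [v0, h', dif_pos]
      exact (b0 _).2
  · have h1 : (n : ℝ) - (m : ℕ) = k := by
      have : m + k = n := by omega
      have h2 : ((m : ℕ) : ℝ) + k = n := by exact_mod_cast this
      linarith
    rw [h1] at hwu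
    exact hwu

/-- orthonormal families of `S` on which `u` is large -/
lemma exists_family {E : Type*} [NormedAddCommGroup E] [NormedSpace 𝕜 E] {n : ℕ}
    (u : EuclideanSpace 𝕜 (Fin n) →L[𝕜] E) (hu1 : ‖u‖ ≤ 1)
    (hu : ∀ v : EuclideanSpace 𝕜 (Fin n) →L[𝕜] EuclideanSpace 𝕜 (Fin n),
        ‖u ∘L v‖ ≤ 1 → ‖v.det‖ ≤ 1)
    (S : Submodule 𝕜 (EuclideanSpace 𝕜 (Fin n))) (k : ℕ) (hS : k ≤ finrank 𝕜 S) (j : ℕ)
    (hj : j ≤ k) :
    ∃ y : Fin j → EuclideanSpace 𝕜 (Fin n), Orthonormal 𝕜 y ∧ (∀ i, y i ∈ S) ∧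
      ∀ i : Fin j, ((k : ℝ) - (i : ℕ)) / (2 * n) ≤ ‖u (y i)‖ := by
  classical
  induction j with
  | zero => exact ⟨Fin.elim0, ⟨fun i => i.elim0, fun i => i.elim0⟩, fun i => i.elim0,
      fun i => i.elim0⟩
  | succ j ih =>
    obtain ⟨y, hy, hyS, hyu⟩ := ih (by omega)
    let W := Submodule.span 𝕜 (Set.range y)
    have hW : finrank 𝕜 W = j := by
      have := finrank_span_eq_card hy.linearIndependent
      simpa using this
    have hWS : W ≤ S := by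
      rw [Submodule.span_le]
      rintro _ ⟨i, rfl⟩
      exact hyS i
    have hfr := Submodule.finrank_add_inf_finrank_orthogonal hWS
    have hfr2 : k - j ≤ finrank 𝕜 (Wᗮ ⊓ S : Submodule 𝕜 (EuclideanSpace 𝕜 (Fin n))) := by
      omega
    obtain ⟨w, hwS, hw1, hwu⟩ := exists_unit u hu1 hu (Wᗮ ⊓ S) (k - j) (by omega) hfr2
    have hwo : ∀ i, inner 𝕜 (y i) w = 0 := by
      intro i
      have h1 : w ∈ Wᗮ := hwS.1
      exact (Submodule.mem_orthogonal W w).mp h1 _ (Submodule.subset_span ⟨i, rfl⟩)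
    refine ⟨Fin.snoc y w, ?_, ?_, ?_⟩
    · constructor
      · intro i
        refine Fin.lastCases ?_ (fun i => ?_) i
        · simp [hw1]
        · simp [hy.1 i]
      · intro a b
        refine Fin.lastCases ?_ (fun a => ?_) a
        · refine Fin.lastCases ?_ (fun b => ?_) b
          · intro h
            exact absurd rfl h
          · intro _
            simp only [Fin.snoc_last, Fin.snoc_castSucc]
            exact inner_eq_zero_symm.mp (hwo b)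
        · refine Fin.lastCases ?_ (fun b => ?_) b
          · intro _
            simp only [Fin.snoc_last, Fin.snoc_castSucc]
            exact hwo a
          · intro h
            simp only [Fin.snoc_castSucc]
            apply hy.2
            intro hab
            exact h (by rw [hab])
    · intro i
      refine Fin.lastCases ?_ (fun i => ?_) i
      · simp only [Fin.snoc_last]
        exact hwS.2
      · simp only [Fin.snoc_castSucc]
        exact hyS i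
    · intro i
      refine Fin.lastCases ?_ (fun i => ?_) i
      · simp only [Fin.snoc_last, Fin.val_last]
        rw [Nat.cast_sub (by omega)] at hwu
        exact hwu
      · simp only [Fin.snoc_castSucc, Fin.val_castSucc]
        exact hyu i

lemma norm_sum_sq {n k : ℕ} {y : Fin k → EuclideanSpace 𝕜 (Fin n)} (hy : Orthonormal 𝕜 y)
    (a : Fin k → 𝕜) : ‖∑ i, a i • y i‖ ^ 2 = ∑ i, ‖a i‖ ^ 2 := by
  have h1 := hy.inner_sum a a Finset.univ
  rw [inner_self_eq_norm_sq_to_K] at h1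
  have h2 : ∑ i, (starRingEnd 𝕜) (a i) * a i = ((∑ i, ‖a i‖ ^ 2 : ℝ) : 𝕜) := by
    push_cast
    refine Finset.sum_congr rfl fun i _ => ?_
    rw [RCLike.conj_mul]
  rw [h2] at h1
  exact_mod_cast h1

/-- a unit vector of `S` on which `v` is large -/
lemma exists_image {E : Type*} [NormedAddCommGroup E] [NormedSpace 𝕜 E] {n : ℕ}
    (u : EuclideanSpace 𝕜 (Fin n) →L[𝕜] E) (hu1 : ‖u‖ ≤ 1)
    (hu : ∀ v : EuclideanSpace 𝕜 (Fin n) →L[𝕜] EuclideanSpace 𝕜 (Fin n),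
        ‖u ∘L v‖ ≤ 1 → ‖v.det‖ ≤ 1)
    (v : EuclideanSpace 𝕜 (Fin n) →L[𝕜] EuclideanSpace 𝕜 (Fin n))
    (w : EuclideanSpace 𝕜 (Fin n) →L[𝕜] E) (huv : ∀ x, w (v x) = u x) (p : ℝ) (hp : 0 < p)
    (h2 : ∀ (m : ℕ) (z : Fin m → EuclideanSpace 𝕜 (Fin n)), Wk 𝕜 z →
      ∑ i, ‖w (z i)‖ ^ 2 ≤ p ^ 2)
    (S : Submodule 𝕜 (EuclideanSpace 𝕜 (Fin n))) (k : ℕ) (hk : 1 ≤ k) (hS : k ≤ finrank 𝕜 S) :
    ∃ x ∈ S, ‖x‖ = 1 ∧ (k : ℝ) ^ 3 / (48 * (n : ℝ) ^ 2) ≤ p ^ 2 * ‖v x‖ ^ 2 := by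
  by_contra hcon
  push Not at hcon
  have hkn : finrank 𝕜 S ≤ n := by
    have := S.finrank_le
    simpa using this
  have hn0 : (0 : ℝ) < n := by
    have : 0 < n := by omega
    exact_mod_cast this
  have hk0 : (0 : ℝ) < k := by exact_mod_cast hk
  obtain ⟨y, hy, hyS, hyu⟩ := exists_family u hu1 hu S k hS k le_rfl
  set q : ℝ := (k : ℝ) ^ 3 / (48 * (n : ℝ) ^ 2) with hq
  have hq0 : 0 < q := by positivity
  set t : ℝ := √q / p with ht
  have ht0 : 0 < t := by positivity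
  have hpt : p ^ 2 * t ^ 2 = q := by
    rw [ht, div_pow, Real.sq_sqrt hq0.le]
    field_simp
  have hv : ∀ x ∈ S, ‖v x‖ ≤ t * ‖x‖ := by
    intro x hx
    by_cases hz : x = 0
    · simp [hz]
    · have hxn : 0 < ‖x‖ := norm_pos_iff.mpr hz
      have h3 := hcon ((((‖x‖ : ℝ) : 𝕜)⁻¹) • x) (S.smul_mem _ hx) (by
        rw [norm_smul, norm_inv, RCLike.norm_ofReal, abs_norm, inv_mul_cancel₀ hxn.ne'])
      rw [map_smul, norm_smul, norm_inv, RCLike.norm_ofReal, abs_norm, ← hpt] at h3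
      have h4 : (‖x‖⁻¹ * ‖v x‖) ^ 2 < t ^ 2 := by
        have hp2 : 0 < p ^ 2 := by positivity
        exact lt_of_mul_lt_mul_left h3 hp2.le
      have h5 : ‖x‖⁻¹ * ‖v x‖ < t := lt_of_pow_lt_pow_left₀ 2 ht0.le h4
      rw [inv_mul_lt_iff₀ hxn] at h5
      linarith
  have hwk : Wk 𝕜 (fun i => ((t : 𝕜)⁻¹) • v (y i)) := by
    intro a
    have h3 : ∑ i, a i • ((t : 𝕜)⁻¹) • v (y i) = ((t : 𝕜)⁻¹) • v (∑ i, a i • y i) := by
      rw [map_sum, Finset.smul_sum]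
      refine Finset.sum_congr rfl fun i _ => ?_
      rw [map_smul, smul_comm]
    rw [h3, ← norm_sum_sq hy a, norm_smul, norm_inv, RCLike.norm_ofReal, abs_of_pos ht0]
    have h4 := hv _ (S.sum_mem fun i (_ : i ∈ Finset.univ) => S.smul_mem (a i) (hyS i))
    have h5 : t⁻¹ * ‖v (∑ i, a i • y i)‖ ≤ ‖∑ i, a i • y i‖ := by
      rw [inv_mul_le_iff₀ ht0]
      exact h4
    exact pow_le_pow_left₀ (by positivity) h5 2
  have h3 := h2 k _ hwk
  have h4 : ∀ i, ‖w (((t : 𝕜)⁻¹) • v (y i))‖ ^ 2 = (t ^ 2)⁻¹ * ‖u (y i)‖ ^ 2 := by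
    intro i
    rw [map_smul, huv, norm_smul, norm_inv, RCLike.norm_ofReal, abs_of_pos ht0, mul_pow, inv_pow]
  simp only [h4] at h3
  rw [← Finset.mul_sum, inv_mul_le_iff₀ (by positivity)] at h3
  have h5 : ∑ i : Fin k, (((k : ℝ) - (i : ℕ)) / (2 * n)) ^ 2 ≤ ∑ i, ‖u (y i)‖ ^ 2 := by
    refine Finset.sum_le_sum fun i _ => ?_
    apply pow_le_pow_left₀ _ (hyu i)
    apply div_nonneg
    · have : ((i : ℕ) : ℝ) ≤ k := by exact_mod_cast i.2.le
      linarith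
    · positivity
  have h6 : ∑ i : Fin k, (((k : ℝ) - (i : ℕ)) / (2 * n)) ^ 2 =
      (∑ i ∈ Finset.range k, ((k : ℝ) - i) ^ 2) / (4 * (n : ℝ) ^ 2) := by
    rw [Finset.sum_div, ← Fin.sum_univ_eq_sum_range
      (fun i => ((k : ℝ) - (i : ℝ)) ^ 2 / (4 * (n : ℝ) ^ 2)) k]
    refine Finset.sum_congr rfl fun i _ => ?_
    rw [div_pow]
    congr 1
    ring
  have h7 := sum_sq_ge k
  have h8 : (k : ℝ) ^ 3 / (12 * (n : ℝ) ^ 2) ≤
      (∑ i ∈ Finset.range k, ((k : ℝ) - i) ^ 2) / (4 * (n : ℝ) ^ 2) := by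
    rw [div_le_div_iff₀ (by positivity) (by positivity)]
    nlinarith [sq_nonneg (n : ℝ), mul_pos hn0 hn0]
  have h9 : t ^ 2 * p ^ 2 = q := by rw [mul_comm]; exact hpt
  rw [h9] at h3
  have h10 : q < (k : ℝ) ^ 3 / (12 * (n : ℝ) ^ 2) := by
    rw [hq, div_lt_div_iff₀ (by positivity) (by positivity)]
    have : 0 < (k : ℝ) ^ 3 * (n : ℝ) ^ 2 := by positivity
    nlinarith
  rw [h6] at h5
  linarith

/-- a family of unit vectors with orthogonal large images -/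
lemma exists_orth {E : Type*} [NormedAddCommGroup E] [NormedSpace 𝕜 E] {n : ℕ}
    (u : EuclideanSpace 𝕜 (Fin n) →L[𝕜] E) (hu1 : ‖u‖ ≤ 1)
    (hu : ∀ v : EuclideanSpace 𝕜 (Fin n) →L[𝕜] EuclideanSpace 𝕜 (Fin n),
        ‖u ∘L v‖ ≤ 1 → ‖v.det‖ ≤ 1)
    (v : EuclideanSpace 𝕜 (Fin n) →L[𝕜] EuclideanSpace 𝕜 (Fin n)) (hv : Function.Injective v)
    (w : EuclideanSpace 𝕜 (Fin n) →L[𝕜] E) (huv : ∀ x, w (v x) = u x) (p : ℝ) (hp : 0 < p)
    (h2 : ∀ (m : ℕ) (z : Fin m → EuclideanSpace 𝕜 (Fin n)), Wk 𝕜 z →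
      ∑ i, ‖w (z i)‖ ^ 2 ≤ p ^ 2) (j : ℕ) (hj : j ≤ n) :
    ∃ x : Fin j → EuclideanSpace 𝕜 (Fin n), (∀ i, ‖x i‖ = 1) ∧
      (∀ a b, a ≠ b → inner 𝕜 (v (x a)) (v (x b)) = 0) ∧
      ∀ i : Fin j, ((n : ℝ) - (i : ℕ)) ^ 3 / (48 * (n : ℝ) ^ 2) ≤ p ^ 2 * ‖v (x i)‖ ^ 2 := by
  classical
  induction j with
  | zero => exact ⟨Fin.elim0, fun i => i.elim0, fun i => i.elim0, fun i => i.elim0⟩
  | succ j ih =>
    obtain ⟨x, hx1, hxo, hxv⟩ := ih (by omega)
    let W := Submodule.span 𝕜 (Set.range fun i => v (x i))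
    have hW : finrank 𝕜 W ≤ j := by
      have h3 := finrank_range_le_card (R := 𝕜) (fun i => v (x i))
      rw [Fintype.card_fin] at h3
      exact h3
    have hWo : n - j ≤ finrank 𝕜 Wᗮ := by
      have := Submodule.finrank_add_finrank_orthogonal W
      simp only [finrank_euclideanSpace, Fintype.card_fin] at this
      omega
    let ve : EuclideanSpace 𝕜 (Fin n) ≃ₗ[𝕜] EuclideanSpace 𝕜 (Fin n) :=
      LinearEquiv.ofInjectiveEndo (v : EuclideanSpace 𝕜 (Fin n) →ₗ[𝕜] _) hv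
    let V' : Submodule 𝕜 (EuclideanSpace 𝕜 (Fin n)) :=
      Submodule.map (ve.symm : EuclideanSpace 𝕜 (Fin n) →ₗ[𝕜] EuclideanSpace 𝕜 (Fin n)) Wᗮ
    have hfr : finrank 𝕜 V' = finrank 𝕜 Wᗮ := LinearEquiv.finrank_map_eq ve.symm Wᗮ
    obtain ⟨z, hz, hz1, hzv⟩ := exists_image u hu1 hu v w huv p hp h2 V' (n - j) (by omega)
      (by rw [hfr]; exact hWo)
    have hzW : v z ∈ Wᗮ := by
      obtain ⟨z', hz', hzz⟩ := hz
      have h3 : ve z = z' := by
        rw [← hzz]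
        exact ve.apply_symm_apply z'
      have h4 : v z = ve z := rfl
      rw [h4, h3]
      exact hz'
    have hzo : ∀ i, inner 𝕜 (v (x i)) (v z) = 0 := fun i =>
      (Submodule.mem_orthogonal W _).mp hzW _ (Submodule.subset_span ⟨i, rfl⟩)
    refine ⟨Fin.snoc x z, ?_, ?_, ?_⟩
    · intro i
      refine Fin.lastCases ?_ (fun i => ?_) i
      · simp [hz1]
      · simp [hx1 i]
    · intro a b
      refine Fin.lastCases ?_ (fun a => ?_) a
      · refine Fin.lastCases ?_ (fun b => ?_) b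
        · intro h
          exact absurd rfl h
        · intro _
          simp only [Fin.snoc_last, Fin.snoc_castSucc]
          exact inner_eq_zero_symm.mp (hzo b)
      · refine Fin.lastCases ?_ (fun b => ?_) b
        · intro _
          simp only [Fin.snoc_last, Fin.snoc_castSucc]
          exact hzo a
        · intro h
          simp only [Fin.snoc_castSucc]
          apply hxo
          intro hab
          exact h (by rw [hab])
    · intro i
      refine Fin.lastCases ?_ (fun i => ?_) i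
      · simp only [Fin.snoc_last, Fin.val_last]
        rw [Nat.cast_sub (by omega)] at hzv
        exact hzv
      · simp only [Fin.snoc_castSucc, Fin.val_castSucc]
        exact hxv i

lemma prod_sub (n : ℕ) : ∏ i ∈ Finset.range n, ((n : ℝ) - i) = (n.factorial : ℝ) := by
  induction n with
  | zero => simp
  | succ n ih =>
    rw [Finset.prod_range_succ']
    have h1 : ∏ i ∈ Finset.range n, (((n + 1 : ℕ) : ℝ) - ((i + 1 : ℕ) : ℝ)) =
        ∏ i ∈ Finset.range n, ((n : ℝ) - i) := by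
      refine Finset.prod_congr rfl fun i _ => ?_
      push_cast
      ring
    rw [h1, ih, Nat.factorial_succ]
    push_cast
    ring

/-- lower bound for the determinant -/
lemma det_ge {E : Type*} [NormedAddCommGroup E] [NormedSpace 𝕜 E] {n : ℕ}
    (u : EuclideanSpace 𝕜 (Fin n) →L[𝕜] E) (hu1 : ‖u‖ ≤ 1)
    (hu : ∀ v : EuclideanSpace 𝕜 (Fin n) →L[𝕜] EuclideanSpace 𝕜 (Fin n),
        ‖u ∘L v‖ ≤ 1 → ‖v.det‖ ≤ 1)
    (v : EuclideanSpace 𝕜 (Fin n) →L[𝕜] EuclideanSpace 𝕜 (Fin n)) (hv : Function.Injective v)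
    (w : EuclideanSpace 𝕜 (Fin n) →L[𝕜] E) (huv : ∀ x, w (v x) = u x) (p : ℝ) (hp : 0 < p)
    (h2 : ∀ (m : ℕ) (z : Fin m → EuclideanSpace 𝕜 (Fin n)), Wk 𝕜 z →
      ∑ i, ‖w (z i)‖ ^ 2 ≤ p ^ 2) :
    (n.factorial : ℝ) ^ 3 ≤ (48 * (n : ℝ) ^ 2 * p ^ 2) ^ n * ‖v.det‖ ^ 2 := by
  classical
  rcases Nat.eq_zero_or_pos n with h0 | hpos
  · subst h0
    have h3 : v.det = 1 := by
      show LinearMap.det (v : EuclideanSpace 𝕜 (Fin 0) →ₗ[𝕜] EuclideanSpace 𝕜 (Fin 0)) = 1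
      have h4 : (v : EuclideanSpace 𝕜 (Fin 0) →ₗ[𝕜] EuclideanSpace 𝕜 (Fin 0)) = LinearMap.id :=
        Subsingleton.elim _ _
      rw [h4, LinearMap.det_id]
    rw [h3]
    simp
  have hn0 : (0 : ℝ) < n := by exact_mod_cast hpos
  obtain ⟨x, hx1, hxo, hxv⟩ := exists_orth u hu1 hu v hv w huv p hp h2 n le_rfl
  have hne : ∀ i, v (x i) ≠ 0 := by
    intro i h
    have h3 : x i = 0 := hv (by rw [h, map_zero])
    have h4 := hx1 i
    rw [h3, norm_zero] at h4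
    exact zero_ne_one h4
  have h3 := hadamard_eq (fun i => v (x i)) hxo hne
  have h4 : (EuclideanSpace.basisFun (Fin n) 𝕜).toBasis.det (fun i => v (x i)) =
      v.det * (EuclideanSpace.basisFun (Fin n) 𝕜).toBasis.det x := by
    have := (EuclideanSpace.basisFun (Fin n) 𝕜).toBasis.det_comp
      (v : EuclideanSpace 𝕜 (Fin n) →ₗ[𝕜] EuclideanSpace 𝕜 (Fin n)) x
    exact this
  have h5 : ‖(EuclideanSpace.basisFun (Fin n) 𝕜).toBasis.det x‖ ≤ 1 := by
    refine (hadamard_le x).trans ?_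
    simp only [hx1, Finset.prod_const_one]
    exact le_rfl
  have h6 : ∏ i, ‖v (x i)‖ ≤ ‖v.det‖ := by
    rw [← h3, h4, norm_mul]
    have := mul_le_mul_of_nonneg_left h5 (norm_nonneg v.det)
    linarith
  have h7 : ∏ i : Fin n, (((n : ℝ) - (i : ℕ)) ^ 3 / (48 * (n : ℝ) ^ 2)) ≤
      ∏ i : Fin n, (p ^ 2 * ‖v (x i)‖ ^ 2) := by
    apply Finset.prod_le_prod
    · intro i _
      have : ((i : ℕ) : ℝ) ≤ n := by exact_mod_cast i.2.le
      have h8 : 0 ≤ (n : ℝ) - (i : ℕ) := by linarith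
      positivity
    · intro i _
      exact hxv i
  have h8 : ∏ i : Fin n, (((n : ℝ) - (i : ℕ)) ^ 3 / (48 * (n : ℝ) ^ 2)) =
      (n.factorial : ℝ) ^ 3 / (48 * (n : ℝ) ^ 2) ^ n := by
    rw [Finset.prod_div_distrib, Finset.prod_const, Finset.card_univ, Fintype.card_fin,
      Finset.prod_pow, Fin.prod_univ_eq_prod_range (fun i => (n : ℝ) - (i : ℝ)) n, prod_sub]
  have h9 : ∏ i : Fin n, (p ^ 2 * ‖v (x i)‖ ^ 2) = (p ^ 2) ^ n * (∏ i, ‖v (x i)‖) ^ 2 := by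
    rw [Finset.prod_mul_distrib, Finset.prod_const, Finset.card_univ, Fintype.card_fin,
      Finset.prod_pow]
  rw [h8, h9, div_le_iff₀ (by positivity)] at h7
  have h10 : (∏ i, ‖v (x i)‖) ^ 2 ≤ ‖v.det‖ ^ 2 :=
    pow_le_pow_left₀ (Finset.prod_nonneg fun i _ => norm_nonneg _) h6 2
  calc (n.factorial : ℝ) ^ 3 ≤ (p ^ 2) ^ n * (∏ i, ‖v (x i)‖) ^ 2 * (48 * (n : ℝ) ^ 2) ^ n := h7
    _ ≤ (p ^ 2) ^ n * ‖v.det‖ ^ 2 * (48 * (n : ℝ) ^ 2) ^ n := by gcongr
    _ = (48 * (n : ℝ) ^ 2 * p ^ 2) ^ n * ‖v.det‖ ^ 2 := by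
        rw [mul_pow (48 * (n : ℝ) ^ 2) (p ^ 2) n]
        ring

end Pool.Agent.H21.PTy
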