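import Pool.Agent.H21.PTy.Eig

/-!
The determinant of a 2-summing operator on a finite-dimensional normed space.
-/

open Module

namespace Pool.Agent.H21.PTy

variable {𝕜 : Type*} [RCLike 𝕜]

lemma consts : 48 * Real.exp 1 ^ 3 ≤ 1024 := by
  have h := Real.exp_one_lt_d9
  have h0 := Real.exp_pos 1
  calc 48 * Real.exp 1 ^ 3 ≤ 48 * (2.7182818286 : ℝ) ^ 3 := by
        apply mul_le_mul_of_nonneg_left _ (by norm_num)
        exact pow_le_pow_left₀ h0.le h.le 3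
    _ ≤ 1024 := by norm_num

theorem det_le {F : Type*} [NormedAddCommGroup F] [NormedSpace 𝕜 F] [FiniteDimensional 𝕜 F]
    (A : F →ₗ[𝕜] F) (p : ℝ) (hp : 0 ≤ p)
    (h2 : ∀ (m : ℕ) (x : Fin m → F), Wk 𝕜 x → ∑ i, ‖A (x i)‖ ^ 2 ≤ p ^ 2) :
    (finrank 𝕜 F : ℝ) ^ (finrank 𝕜 F) * ‖LinearMap.det A‖ ^ 2 ≤
      (32 * p) ^ (2 * finrank 𝕜 F) := by
  obtain ⟨n, hn⟩ : ∃ n : ℕ, finrank 𝕜 F = n := ⟨_, rfl⟩
  rw [hn]
  rcases Nat.eq_zero_or_pos n with h0 | hpos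
  · subst h0
    rw [LinearMap.det_eq_one_of_finrank_eq_zero hn A]
    simp
  have hn0 : (0 : ℝ) < n := by exact_mod_cast hpos
  by_cases hA : LinearMap.det A = 0
  · rw [hA, norm_zero]
    simp only [ne_eq, OfNat.ofNat_ne_zero, not_false_eq_true, zero_pow, mul_zero]
    positivity
  let Ae : F ≃ₗ[𝕜] F := LinearMap.equivOfDetNeZero A hA
  have hAe : ∀ x, Ae x = A x := fun x => rfl
  -- p is positive
  have hp0 : 0 < p := by
    rcases hp.eq_or_lt with h | h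
    · exfalso
      haveI : Nontrivial F := Module.nontrivial_of_finrank_pos (R := 𝕜) (by omega)
      obtain ⟨y, hy⟩ := exists_ne (0 : F)
      have hyn : 0 < ‖y‖ := norm_pos_iff.mpr hy
      have h3 := h2 1 (fun _ => (((‖y‖ : ℝ) : 𝕜)⁻¹) • y) (by
        intro a
        simp only [Finset.univ_unique, Fin.default_eq_zero, Finset.sum_singleton]
        rw [norm_smul, norm_smul, norm_inv, RCLike.norm_ofReal, abs_norm,
          inv_mul_cancel₀ hyn.ne', mul_one])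
      simp only [Finset.univ_unique, Fin.default_eq_zero, Finset.sum_singleton] at h3
      rw [← h] at h3
      have h4 : ‖A ((((‖y‖ : ℝ) : 𝕜)⁻¹) • y)‖ = 0 := by
        have h5 : ‖A ((((‖y‖ : ℝ) : 𝕜)⁻¹) • y)‖ ^ 2 = 0 := by
          refine le_antisymm ?_ (by positivity)
          simpa using h3
        exact pow_eq_zero_iff (two_ne_zero) |>.mp h5
      have h6 : Ae ((((‖y‖ : ℝ) : 𝕜)⁻¹) • y) = 0 := by
        rw [hAe]
        exact norm_eq_zero.mp h4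
      rw [LinearEquiv.map_eq_zero_iff] at h6
      rcases smul_eq_zero.mp h6 with h7 | h7
      · have : ((‖y‖ : ℝ) : 𝕜) ≠ 0 := by exact_mod_cast hyn.ne'
        exact this (inv_eq_zero.mp h7)
      · exact hy h7
    · exact h
  obtain ⟨u, hu1, hu, hinj⟩ := exists_max (𝕜 := 𝕜) hn
  let ue : EuclideanSpace 𝕜 (Fin n) ≃ₗ[𝕜] F :=
    LinearMap.linearEquivOfInjective (u : EuclideanSpace 𝕜 (Fin n) →ₗ[𝕜] F) hinj (by simp [hn])
  have hue : ∀ x, ue x = u x := fun x => rfl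
  let vl : EuclideanSpace 𝕜 (Fin n) →ₗ[𝕜] EuclideanSpace 𝕜 (Fin n) :=
    ((ue.symm : F →ₗ[𝕜] EuclideanSpace 𝕜 (Fin n)) ∘ₗ (Ae.symm : F →ₗ[𝕜] F)) ∘ₗ
      (ue : EuclideanSpace 𝕜 (Fin n) →ₗ[𝕜] F)
  have hvl : ∀ x, vl x = ue.symm (Ae.symm (ue x)) := fun x => rfl
  have hvinj : Function.Injective vl := by
    intro a b hab
    rw [hvl, hvl] at hab
    exact ue.injective (Ae.symm.injective (ue.symm.injective hab))
  let w : EuclideanSpace 𝕜 (Fin n) →L[𝕜] F := (LinearMap.toContinuousLinearMap A) ∘L u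
  have hw : ∀ x, w x = A (u x) := fun x => rfl
  have huv : ∀ x, w (LinearMap.toContinuousLinearMap vl x) = u x := by
    intro x
    show A (u (vl x)) = u x
    rw [hvl, ← hue, ue.apply_symm_apply, ← hAe, Ae.apply_symm_apply, hue]
  have h2w : ∀ (m : ℕ) (z : Fin m → EuclideanSpace 𝕜 (Fin n)), Wk 𝕜 z →
      ∑ i, ‖w (z i)‖ ^ 2 ≤ p ^ 2 := by
    intro m z hz
    have h3 : Wk 𝕜 (fun i => u (z i)) := by
      intro a
      have h4 : ∑ i, a i • u (z i) = u (∑ i, a i • z i) := by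
        rw [map_sum]
        refine Finset.sum_congr rfl fun i _ => ?_
        rw [map_smul]
      rw [h4]
      refine le_trans ?_ (hz a)
      apply pow_le_pow_left₀ (norm_nonneg _)
      have h5 := u.le_opNorm (∑ i, a i • z i)
      have h6 : ‖u‖ * ‖∑ i, a i • z i‖ ≤ 1 * ‖∑ i, a i • z i‖ :=
        mul_le_mul_of_nonneg_right hu1 (norm_nonneg _)
      linarith
    exact h2 m _ h3
  have h3 := det_ge u hu1 hu (LinearMap.toContinuousLinearMap vl) hvinj w huv p hp0 h2w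
  have h4 : (LinearMap.toContinuousLinearMap vl).det = (LinearMap.det A)⁻¹ := by
    have h5 : LinearMap.det vl = LinearMap.det (Ae.symm : F →ₗ[𝕜] F) := by
      have := LinearMap.det_conj (Ae.symm : F →ₗ[𝕜] F) ue.symm
      rw [LinearEquiv.symm_symm] at this
      rw [← this]
      rfl
    have h6 : LinearMap.det (Ae.symm : F →ₗ[𝕜] F) * LinearMap.det (Ae : F →ₗ[𝕜] F) = 1 :=
      LinearEquiv.det_symm_mul_det Ae
    have h7 : LinearMap.det (Ae : F →ₗ[𝕜] F) = LinearMap.det A := rfl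
    show LinearMap.det vl = _
    rw [h5]
    rw [h7] at h6
    exact eq_inv_of_mul_eq_one_left h6
  rw [h4, norm_inv] at h3
  have hd : 0 < ‖LinearMap.det A‖ := norm_pos_iff.mpr hA
  have h5 : (n.factorial : ℝ) ^ 3 * ‖LinearMap.det A‖ ^ 2 ≤ (48 * (n : ℝ) ^ 2 * p ^ 2) ^ n := by
    rw [inv_pow] at h3
    rw [← div_eq_mul_inv, le_div_iff₀ (by positivity)] at h3
    exact h3
  have h6 : (n : ℝ) ^ n ≤ Real.exp n * n.factorial := by
    have := Real.pow_div_factorial_le_exp (n : ℝ) hn0.le n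
    rw [div_le_iff₀ (by positivity)] at this
    exact this
  have h7 : ((n : ℝ) ^ n) ^ 3 ≤ (Real.exp 1 ^ 3) ^ n * (n.factorial : ℝ) ^ 3 := by
    calc ((n : ℝ) ^ n) ^ 3 ≤ (Real.exp n * n.factorial) ^ 3 :=
          pow_le_pow_left₀ (by positivity) h6 3
      _ = (Real.exp n) ^ 3 * (n.factorial : ℝ) ^ 3 := by ring
      _ = (Real.exp 1 ^ 3) ^ n * (n.factorial : ℝ) ^ 3 := by
          have : Real.exp n = Real.exp 1 ^ n := by
            rw [← Real.exp_nat_mul]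
            norm_num
          rw [this]
          ring
  have h8 : ((n : ℝ) ^ n) ^ 3 * ‖LinearMap.det A‖ ^ 2 ≤
      (Real.exp 1 ^ 3) ^ n * (48 * (n : ℝ) ^ 2 * p ^ 2) ^ n := by
    calc ((n : ℝ) ^ n) ^ 3 * ‖LinearMap.det A‖ ^ 2
        ≤ ((Real.exp 1 ^ 3) ^ n * (n.factorial : ℝ) ^ 3) * ‖LinearMap.det A‖ ^ 2 :=
          mul_le_mul_of_nonneg_right h7 (by positivity)
      _ = (Real.exp 1 ^ 3) ^ n * ((n.factorial : ℝ) ^ 3 * ‖LinearMap.det A‖ ^ 2) := by ring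
      _ ≤ _ := mul_le_mul_of_nonneg_left h5 (by positivity)
  have h9 : ((n : ℝ) ^ n) ^ 2 * ((n : ℝ) ^ n * ‖LinearMap.det A‖ ^ 2) ≤
      ((n : ℝ) ^ n) ^ 2 * (48 * Real.exp 1 ^ 3 * p ^ 2) ^ n := by
    calc ((n : ℝ) ^ n) ^ 2 * ((n : ℝ) ^ n * ‖LinearMap.det A‖ ^ 2)
        = ((n : ℝ) ^ n) ^ 3 * ‖LinearMap.det A‖ ^ 2 := by ring
      _ ≤ (Real.exp 1 ^ 3) ^ n * (48 * (n : ℝ) ^ 2 * p ^ 2) ^ n := h8
      _ = ((n : ℝ) ^ n) ^ 2 * (48 * Real.exp 1 ^ 3 * p ^ 2) ^ n := by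
          have e1 : ((n : ℝ) ^ n) ^ 2 = ((n : ℝ) ^ 2) ^ n := by
            rw [← pow_mul, ← pow_mul, mul_comm]
          rw [e1, ← mul_pow, ← mul_pow]
          congr 1
          ring
  have h10 : (n : ℝ) ^ n * ‖LinearMap.det A‖ ^ 2 ≤ (48 * Real.exp 1 ^ 3 * p ^ 2) ^ n :=
    le_of_mul_le_mul_left h9 (by positivity)
  refine h10.trans ?_
  rw [pow_mul]
  apply pow_le_pow_left₀ (by positivity)
  have h11 := consts
  have h12 : 48 * Real.exp 1 ^ 3 * p ^ 2 ≤ 1024 * p ^ 2 :=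
    mul_le_mul_of_nonneg_right h11 (by positivity)
  nlinarith

end Pool.Agent.H21.PTy
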