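import Pool.Agent.H21.PTy.Det

/-!
If every compact operator on a Banach space X is nuclear, then compact operators are 2-summing
with constant at most C ||T||.
-/

open Module

namespace Pool.Agent.H21.PTy

variable {𝕜 : Type*} [RCLike 𝕜] {X : Type*} [NormedAddCommGroup X] [NormedSpace 𝕜 X]

/-- nuclear operators -/
def Nuclear (T : X →L[𝕜] X) : Prop :=
  ∃ (f : ℕ → (X →L[𝕜] 𝕜)) (y : ℕ → X), Summable (fun n => ‖f n‖ * ‖y n‖) ∧
    ∀ x : X, HasSum (fun n => (f n x) • y n) (T x)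

/-- weak 2-norm at most one -/
def Wk (𝕜 : Type*) [RCLike 𝕜] {X : Type*} [NormedAddCommGroup X] [NormedSpace 𝕜 X]
    {m : ℕ} (x : Fin m → X) : Prop :=
  ∀ a : Fin m → 𝕜, ‖∑ i, a i • x i‖ ^ 2 ≤ ∑ i, ‖a i‖ ^ 2

lemma Wk.sum_le {m : ℕ} {x : Fin m → X} (hx : Wk 𝕜 x) (f : X →L[𝕜] 𝕜) :
    ∑ i, ‖f (x i)‖ ^ 2 ≤ ‖f‖ ^ 2 := by
  set s : ℝ := ∑ i, ‖f (x i)‖ ^ 2 with hs
  have hs0 : 0 ≤ s := Finset.sum_nonneg fun i _ => by positivity
  have h1 := hx (fun i => (starRingEnd 𝕜) (f (x i)))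
  have h2 : ∑ i, ‖(starRingEnd 𝕜) (f (x i))‖ ^ 2 = s := by
    rw [hs]
    refine Finset.sum_congr rfl fun i _ => ?_
    rw [RCLike.norm_conj]
  rw [h2] at h1
  have h3 : f (∑ i, (starRingEnd 𝕜) (f (x i)) • x i) = ((s : ℝ) : 𝕜) := by
    rw [map_sum, hs]
    push_cast
    refine Finset.sum_congr rfl fun i _ => ?_
    rw [map_smul, smul_eq_mul, RCLike.conj_mul]
  have h4 : s ≤ ‖f‖ * ‖∑ i, (starRingEnd 𝕜) (f (x i)) • x i‖ := by
    have h5 := f.le_opNorm (∑ i, (starRingEnd 𝕜) (f (x i)) • x i)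
    rw [h3, RCLike.norm_ofReal, abs_of_nonneg hs0] at h5
    exact h5
  have h6 : s ^ 2 ≤ ‖f‖ ^ 2 * s := by
    calc s ^ 2 ≤ (‖f‖ * ‖∑ i, (starRingEnd 𝕜) (f (x i)) • x i‖) ^ 2 :=
          pow_le_pow_left₀ hs0 h4 2
      _ = ‖f‖ ^ 2 * ‖∑ i, (starRingEnd 𝕜) (f (x i)) • x i‖ ^ 2 := by ring
      _ ≤ ‖f‖ ^ 2 * s := mul_le_mul_of_nonneg_left h1 (by positivity)
  rcases hs0.eq_or_lt with h0 | hpos
  · rw [← h0]
    positivity
  · have : s * s ≤ ‖f‖ ^ 2 * s := by rw [← sq]; exact h6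
    exact le_of_mul_le_mul_right this hpos

/-- a nuclear operator is 2-summing -/
lemma Nuclear.exists_bound {T : X →L[𝕜] X} (hT : Nuclear T) :
    ∃ N : ℝ, 0 ≤ N ∧ ∀ (m : ℕ) (x : Fin m → X), Wk 𝕜 x → ∑ i, ‖T (x i)‖ ^ 2 ≤ N ^ 2 := by
  obtain ⟨f, y, hs, hTx⟩ := hT
  refine ⟨∑' n, ‖f n‖ * ‖y n‖, tsum_nonneg fun n => by positivity, ?_⟩
  intro m x hx
  -- the vectors in l_2^m
  let v : ℕ → EuclideanSpace ℝ (Fin m) :=
    fun n => WithLp.toLp 2 (fun i => ‖y n‖ * ‖f n (x i)‖)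
  have hvn : ∀ n, ‖v n‖ ≤ ‖f n‖ * ‖y n‖ := by
    intro n
    rw [EuclideanSpace.norm_eq]
    apply Real.sqrt_le_iff.mpr
    refine ⟨by positivity, ?_⟩
    have h1 : ∀ i, ‖(v n) i‖ ^ 2 = ‖y n‖ ^ 2 * ‖f n (x i)‖ ^ 2 := by
      intro i
      show ‖‖y n‖ * ‖f n (x i)‖‖ ^ 2 = _
      rw [Real.norm_of_nonneg (by positivity)]
      ring
    simp only [h1]
    rw [← Finset.mul_sum]
    have h2 := hx.sum_le (f n)
    calc ‖y n‖ ^ 2 * ∑ i, ‖f n (x i)‖ ^ 2 ≤ ‖y n‖ ^ 2 * ‖f n‖ ^ 2 :=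
          mul_le_mul_of_nonneg_left h2 (by positivity)
      _ = _ := by ring
  have hsv : Summable fun n => ‖v n‖ := Summable.of_nonneg_of_le (fun n => norm_nonneg _) hvn hs
  have hsv' : Summable v := hsv.of_norm
  have hle : ‖∑' n, v n‖ ≤ ∑' n, ‖f n‖ * ‖y n‖ :=
    (norm_tsum_le_tsum_norm hsv).trans (hsv.tsum_le_tsum hvn hs)
  have hco : ∀ i, ‖T (x i)‖ ≤ (∑' n, v n) i := by
    intro i
    have h1 : HasSum (fun n => (v n) i) ((∑' n, v n) i) := by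
      have := (EuclideanSpace.proj (𝕜 := ℝ) i : EuclideanSpace ℝ (Fin m) →L[ℝ] ℝ).hasSum
        hsv'.hasSum
      exact this
    have h2 := hTx (x i)
    have h3 : ∀ n, ‖(f n (x i)) • y n‖ = (v n) i := by
      intro n
      show _ = ‖y n‖ * ‖f n (x i)‖
      rw [norm_smul, mul_comm]
    have h4 : Summable fun n => ‖(f n (x i)) • y n‖ := by
      simp only [h3]
      exact h1.summable
    rw [← h2.tsum_eq, ← h1.tsum_eq]
    refine (norm_tsum_le_tsum_norm h4).trans ?_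
    simp only [h3]
    exact le_rfl
  have h5 : ∑ i, ‖T (x i)‖ ^ 2 ≤ ‖∑' n, v n‖ ^ 2 := by
    rw [EuclideanSpace.norm_sq_eq]
    refine Finset.sum_le_sum fun i _ => ?_
    have h6 := hco i
    have h7 : (∑' n, v n) i ≤ ‖(∑' n, v n) i‖ := Real.le_norm_self _
    exact pow_le_pow_left₀ (norm_nonneg _) (h6.trans h7) 2
  exact h5.trans (pow_le_pow_left₀ (norm_nonneg _) hle 2)

/-- **Uniform bound** by the Baire category theorem. -/
theorem exists_uniform [CompleteSpace X]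
    (hnuc : ∀ T : X →L[𝕜] X, IsCompactOperator T → Nuclear T) :
    ∃ C : ℝ, 0 < C ∧ ∀ T : X →L[𝕜] X, IsCompactOperator T →
      ∀ (m : ℕ) (x : Fin m → X), Wk 𝕜 x → ∑ i, ‖T (x i)‖ ^ 2 ≤ (C * ‖T‖) ^ 2 := by
  let K : Submodule 𝕜 (X →L[𝕜] X) :=
    { carrier := {T | IsCompactOperator T}
      add_mem' := fun ha hb => ha.add hb
      zero_mem' := isCompactOperator_zero
      smul_mem' := fun c T hT => hT.smul c }
  have hKc : IsClosed (K : Set (X →L[𝕜] X)) := isClosed_setOf_isCompactOperator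
  haveI : CompleteSpace K := hKc.completeSpace_coe
  let A : ℕ → Set K := fun k =>
    {T | ∀ (m : ℕ) (x : Fin m → X), Wk 𝕜 x → ∑ i, ‖(T : X →L[𝕜] X) (x i)‖ ^ 2 ≤ (k : ℝ) ^ 2}
  have hAc : ∀ k, IsClosed (A k) := by
    intro k
    have : A k = ⋂ (m : ℕ), ⋂ (x : Fin m → X), ⋂ (_ : Wk 𝕜 x),
        {T : K | ∑ i, ‖(T : X →L[𝕜] X) (x i)‖ ^ 2 ≤ (k : ℝ) ^ 2} := by
      ext T
      simp only [A, Set.mem_setOf_eq, Set.mem_iInter]
    rw [this]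
    refine isClosed_iInter fun m => isClosed_iInter fun x => isClosed_iInter fun _ => ?_
    refine isClosed_le ?_ continuous_const
    refine continuous_finset_sum _ fun i _ => ?_
    have h1 : Continuous fun T : K => (T : X →L[𝕜] X) (x i) :=
      (ContinuousLinearMap.apply 𝕜 X (x i)).continuous.comp continuous_subtype_val
    exact h1.norm.pow 2
  have hAu : ⋃ k, A k = Set.univ := by
    rw [Set.eq_univ_iff_forall]
    rintro ⟨T, hT⟩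
    obtain ⟨N, hN0, hN⟩ := (hnuc T hT).exists_bound
    obtain ⟨k, hk⟩ := exists_nat_ge N
    refine Set.mem_iUnion.mpr ⟨k, ?_⟩
    intro m x hx
    exact (hN m x hx).trans (pow_le_pow_left₀ hN0 hk 2)
  obtain ⟨k, T0, hT0⟩ := nonempty_interior_of_iUnion_of_closed hAc hAu
  rw [mem_interior_iff_mem_nhds, Metric.mem_nhds_iff] at hT0
  obtain ⟨r, hr, hball⟩ := hT0
  have hT0A : T0 ∈ A k := hball (Metric.mem_ball_self hr)
  refine ⟨4 * (k + 1) / r, by positivity, ?_⟩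
  intro T hT m x hx
  by_cases hz : T = 0
  · subst hz
    simp
  have hTn : 0 < ‖T‖ := norm_pos_iff.mpr hz
  -- the perturbed operator
  let t : ℝ := r / (2 * ‖T‖)
  have ht : 0 < t := by positivity
  let T1 : K := T0 + ((t : ℝ) : 𝕜) • (⟨T, hT⟩ : K)
  have hT1 : T1 ∈ A k := by
    apply hball
    rw [Metric.mem_ball, dist_eq_norm]
    have h1 : T1 - T0 = ((t : ℝ) : 𝕜) • (⟨T, hT⟩ : K) := by
      simp [T1]
    rw [h1]
    show ‖((t : ℝ) : 𝕜) • T‖ < r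
    rw [norm_smul, RCLike.norm_ofReal, abs_of_pos ht]
    have : t * ‖T‖ = r / 2 := by
      simp only [t]
      field_simp
    rw [this]
    linarith
  have h2 := hT1 m x hx
  have h3 := hT0A m x hx
  have h4 : ∀ i, t ^ 2 * ‖T (x i)‖ ^ 2 ≤
      2 * ‖(T1 : X →L[𝕜] X) (x i)‖ ^ 2 + 2 * ‖(T0 : X →L[𝕜] X) (x i)‖ ^ 2 := by
    intro i
    have h5 : (T1 : X →L[𝕜] X) (x i) = (T0 : X →L[𝕜] X) (x i) + ((t : ℝ) : 𝕜) • T (x i) := rfl
    have h6 : t * ‖T (x i)‖ ≤ ‖(T1 : X →L[𝕜] X) (x i)‖ + ‖(T0 : X →L[𝕜] X) (x i)‖ := by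
      have h7 : ((t : ℝ) : 𝕜) • T (x i) =
          (T1 : X →L[𝕜] X) (x i) - (T0 : X →L[𝕜] X) (x i) := by
        rw [h5]
        abel
      have h8 : ‖((t : ℝ) : 𝕜) • T (x i)‖ = t * ‖T (x i)‖ := by
        rw [norm_smul, RCLike.norm_ofReal, abs_of_pos ht]
      rw [← h8, h7]
      exact norm_sub_le _ _
    have h9 : (t * ‖T (x i)‖) ^ 2 ≤
        (‖(T1 : X →L[𝕜] X) (x i)‖ + ‖(T0 : X →L[𝕜] X) (x i)‖) ^ 2 :=
      pow_le_pow_left₀ (by positivity) h6 2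
    have h10 := add_sq_le (a := ‖(T1 : X →L[𝕜] X) (x i)‖) (b := ‖(T0 : X →L[𝕜] X) (x i)‖)
    calc t ^ 2 * ‖T (x i)‖ ^ 2 = (t * ‖T (x i)‖) ^ 2 := by ring
      _ ≤ _ := h9
      _ ≤ 2 * (‖(T1 : X →L[𝕜] X) (x i)‖ ^ 2 + ‖(T0 : X →L[𝕜] X) (x i)‖ ^ 2) := h10
      _ = _ := by ring
  have h5 : t ^ 2 * ∑ i, ‖T (x i)‖ ^ 2 ≤ 4 * (k : ℝ) ^ 2 := by
    rw [Finset.mul_sum]
    refine (Finset.sum_le_sum fun i _ => h4 i).trans ?_
    rw [Finset.sum_add_distrib, ← Finset.mul_sum, ← Finset.mul_sum]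
    linarith
  have h6 : ∑ i, ‖T (x i)‖ ^ 2 ≤ 4 * (k : ℝ) ^ 2 / t ^ 2 := by
    rw [le_div_iff₀ (by positivity)]
    linarith
  refine h6.trans ?_
  have h7 : 4 * (k : ℝ) ^ 2 / t ^ 2 = (4 * k / r * ‖T‖) ^ 2 := by
    simp only [t]
    field_simp
    ring
  rw [h7]
  apply pow_le_pow_left₀ (by positivity)
  apply mul_le_mul_of_nonneg_right _ hTn.le
  gcongr
  linarith

end Pool.Agent.H21.PTy
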